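import Pool.Agent.THX.Stmts

/-!
# Squad THX, module MAX: maximal ideals of the ring of all algebraic integers
-/

noncomputable section

namespace Pool.Agent.THX.H5

open Pool.Agent.THX

theorem not_unit (p : ℕ) (hp : p.Prime) : ¬ IsUnit (p : OO) := by
  intro h
  obtain ⟨a, ha⟩ := h.exists_right_inv
  have h1 : (p : ℂ) * (a : ℂ) = 1 := by
    have h2 := congrArg (fun z : OO => (z : ℂ)) ha
    simpa using h2
  have hl0 : (p : ℂ) ≠ 0 := Nat.cast_ne_zero.2 hp.ne_zero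
  have h3 : (a : ℂ) = algebraMap ℚ ℂ ((p : ℚ)⁻¹) := by
    rw [map_inv₀, map_natCast]
    exact eq_inv_of_mul_eq_one_right h1
  have h4 : IsIntegral ℤ (a : ℂ) := a.2
  rw [h3] at h4
  have h5 : IsIntegral ℤ ((p : ℚ)⁻¹) :=
    (isIntegral_algebraMap_iff (algebraMap ℚ ℂ).injective).1 h4
  obtain ⟨m, hm⟩ := IsIntegrallyClosed.isIntegral_iff.1 h5
  have h6 : (p : ℚ) * (m : ℚ) = 1 := by
    have h7 : ((m : ℤ) : ℚ) = (p : ℚ)⁻¹ := by
      rw [← hm]
      simp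
    rw [h7]
    exact mul_inv_cancel₀ (Nat.cast_ne_zero.2 hp.ne_zero)
  have h8 : (p : ℤ) * m = 1 := by exact_mod_cast h6
  have h9 : (p : ℤ) ∣ 1 := ⟨m, h8.symm⟩
  have h10 : p ∣ 1 := by exact_mod_cast h9
  exact hp.one_lt.ne' (Nat.dvd_one.1 h10)

theorem max : MaxStmt := by
  intro p hp
  have hne : Ideal.span {(p : OO)} ≠ ⊤ := fun h =>
    not_unit p hp (Ideal.span_singleton_eq_top.1 h)
  obtain ⟨M, hM, hle⟩ := Ideal.exists_le_maximal _ hne
  have hmem : (p : OO) ∈ M := hle (Ideal.subset_span rfl)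
  refine ⟨M, hM, hmem, fun a ha => ?_⟩
  by_contra hpa
  have hpp : Prime (p : ℤ) := Nat.prime_iff_prime_int.1 hp
  have hco : IsCoprime (p : ℤ) a := hpp.coprime_iff_not_dvd.2 hpa
  obtain ⟨u, v, huv⟩ := hco
  apply hM.ne_top
  rw [Ideal.eq_top_iff_one]
  have h1 : ((u : OO) * ((p : ℤ) : OO) + (v : OO) * (a : OO)) = 1 := by
    rw [← Int.cast_mul, ← Int.cast_mul, ← Int.cast_add, huv, Int.cast_one]
  rw [← h1]
  have hmem' : (((p : ℤ) : OO)) ∈ M := by
    rw [Int.cast_natCast]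
    exact hmem
  exact M.add_mem (M.mul_mem_left _ hmem') (M.mul_mem_left _ ha)

end Pool.Agent.THX.H5
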